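import Mathlib

/-! The discrepancy between the two ways of sampling a matching pair is at most `61/64`. -/

namespace Pool.Agent.Results.MP_c9cfcf_pr.Socks

open scoped ENNReal Nat

variable {C : Type} [DecidableEq C]

/-- `f₂ = ∑ p_j²` -/
noncomputable def f2 (p : C → ℝ≥0∞) : ℝ≥0∞ := ∑' j, p j ^ 2

/-- Method 1: `P(X = i) = p_i² / f₂` -/
noncomputable def PX (p : C → ℝ≥0∞) (i : C) : ℝ≥0∞ := p i ^ 2 / f2 p

/-- `∑_{J ⊆ C ∖ {i}, |J| = k} ∏_{j ∈ J} p_j` -/
noncomputable def e' (p : C → ℝ≥0∞) (i : C) (k : ℕ) : ℝ≥0∞ :=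
  ∑' J : Finset C, if i ∉ J ∧ J.card = k then ∏ j ∈ J, p j else 0

/-- Method 2: `P(Y = i)` -/
noncomputable def PY (p : C → ℝ≥0∞) (i : C) : ℝ≥0∞ := p i ^ 2 * ∑' k : ℕ, ((k + 1)! : ℕ) * e' p i k

/-- total variation distance; `(a - b) + (b - a) = |a - b|` with truncated subtraction -/
noncomputable def D (p : C → ℝ≥0∞) : ℝ≥0∞ :=
  2⁻¹ * ∑' i, ((PX p i - PY p i) + (PY p i - PX p i))

noncomputable def e (p : C → ℝ≥0∞) (k : ℕ) : ℝ≥0∞ :=
  ∑' J : Finset C, if J.card = k then ∏ j ∈ J, p j else 0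

variable {p : C → ℝ≥0∞}

lemma key (i : C) (k : ℕ) :
    (∑' J : Finset C, if i ∈ J ∧ J.card = k + 1 then ∏ j ∈ J, p j else 0) = p i * e' p i k := by
  let t : Finset C → Finset C := fun J => if i ∈ J then J.erase i else insert i J
  have ht : Function.Involutive t := by
    intro J
    by_cases h : i ∈ J
    · simp [t, h]
    · simp [t, h]
  rw [← ht.toPerm.tsum_eq, e', ← ENNReal.tsum_mul_left]
  refine tsum_congr fun J => ?_
  by_cases h : i ∈ J
  · simp [t, h]
  · simp [t, h, Finset.prod_insert]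

lemma I1 (i : C) (k : ℕ) : e p (k + 1) = e' p i (k + 1) + p i * e' p i k := by
  rw [← key, e, e', ← ENNReal.tsum_add]
  refine tsum_congr fun J => ?_
  by_cases h : i ∈ J <;> simp [h]

lemma I2 (k : ℕ) : ∑' i, p i * e' p i k = (k + 1 : ℕ) * e p (k + 1) := by
  simp only [← key]
  rw [ENNReal.tsum_comm, e, ← ENNReal.tsum_mul_left]
  refine tsum_congr fun J => ?_
  rw [tsum_eq_sum (s := J) fun i hi => by simp [hi]]
  by_cases h : J.card = k + 1
  · rw [Finset.sum_congr rfl (g := fun _ => ∏ j ∈ J, p j) fun i hi => by simp [hi, h]]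
    simp [h]
  · simp [h]

lemma e'_zero (i : C) : e' p i 0 = 1 := by
  rw [e', tsum_eq_single ∅]
  · simp
  · intro J hJ; simp [hJ]

/-- `y k = ∑_i p_i² (k+1)! e'(i,k)` -/
noncomputable def y (p : C → ℝ≥0∞) (k : ℕ) : ℝ≥0∞ := ∑' i, p i ^ 2 * (((k + 1)! : ℕ) * e' p i k)

lemma tele (hp : ∑' i, p i = 1) (n : ℕ) :
    ∑ k ∈ Finset.range n, y p k + ((n + 1)! : ℕ) * e p (n + 1) = 1 := by
  induction n with
  | zero =>
    have := I2 (p := p) 0
    simp only [e'_zero, mul_one, hp] at this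
    simpa using this.symm
  | succ n ih =>
    have h : e p (n + 1) = (n + 1 + 1 : ℕ) * e p (n + 1 + 1) + ∑' i, p i ^ 2 * e' p i n := by
      rw [← I2, ← ENNReal.tsum_add, ← one_mul (e p (n + 1)), ← hp, ← ENNReal.tsum_mul_right]
      refine tsum_congr fun i => ?_
      rw [I1 i]; ring
    rw [← ih, Finset.sum_range_succ, h, Nat.factorial_succ (n + 1), mul_add, ← ENNReal.tsum_mul_left]
    have : y p n = ∑' i, ((n + 1)! : ℕ) * (p i ^ 2 * e' p i n) := tsum_congr fun i => by ring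
    rw [this]
    push_cast
    ring

lemma b_le (hp : ∑' i, p i = 1) (i : C) (k : ℕ) : (k ! : ℕ) * e' p i k ≤ 1 := by
  cases k with
  | zero => simp [e'_zero]
  | succ k =>
    rw [← tele hp k, I1 i]
    exact (mul_le_mul_right le_self_add _).trans le_add_self

lemma y_le (hp : ∑' i, p i = 1) (k : ℕ) : y p k ≤ (k + 1 : ℕ) * f2 p := by
  rw [f2, ← ENNReal.tsum_mul_left]
  refine ENNReal.tsum_le_tsum fun i => ?_
  rw [Nat.factorial_succ, Nat.cast_mul, mul_assoc, mul_left_comm]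
  exact mul_le_mul_right (mul_le_of_le_one_right' (b_le hp i k)) _

lemma b_ge (hp : ∑' i, p i = 1) (i : C) (n : ℕ) :
    1 ≤ (n ! : ℕ) * e' p i n + n * p i + (∑ k ∈ Finset.range n, k : ℕ) * f2 p := by
  cases n with
  | zero => simp [e'_zero]
  | succ n =>
    rw [← tele hp n, I1 i, mul_add, add_comm, Finset.sum_range_succ', add_zero, Nat.cast_sum,
      Finset.sum_mul]
    refine add_le_add (add_le_add le_rfl ?_) (Finset.sum_le_sum fun k _ => y_le hp k)
    rw [Nat.factorial_succ, Nat.cast_mul, mul_assoc, mul_left_comm (n ! : ℝ≥0∞)]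
    exact mul_le_mul_right (mul_le_of_le_one_right' (b_le hp i n)) _

lemma sum_PY (hp : ∑' i, p i = 1) : ∑' i, PY p i ≤ 1 := by
  have : ∑' i, PY p i = ∑' k, y p k := by
    simp only [PY, y, ← ENNReal.tsum_mul_left]
    exact ENNReal.tsum_comm
  rw [this, ENNReal.tsum_eq_iSup_nat]
  exact iSup_le fun n => (tele hp n) ▸ le_self_add

omit [DecidableEq C] in
lemma f2_le (hp : ∑' i, p i = 1) : f2 p ≤ 1 := by
  rw [← hp]
  refine ENNReal.tsum_le_tsum fun i => ?_
  rw [sq]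
  exact mul_le_of_le_one_right' (hp ▸ ENNReal.le_tsum i)

omit [DecidableEq C] in
lemma f2_ne (hp : ∑' i, p i = 1) : f2 p ≠ 0 := by
  intro h
  rw [f2, ENNReal.tsum_eq_zero] at h
  have : ∀ i, p i = 0 := fun i => by simpa using h i
  simp [this] at hp

lemma g_ge (hp : ∑' i, p i = 1) (i : C) :
    ENNReal.ofReal (3 / 64) / f2 p ≤ ∑' k : ℕ, ((k + 1)! : ℕ) * e' p i k := by
  have hft : f2 p ≠ ⊤ := ne_top_of_le_ne_top ENNReal.one_ne_top (f2_le hp)
  have hpt : p i ≠ ⊤ := ne_top_of_le_ne_top ENNReal.one_ne_top (hp ▸ ENNReal.le_tsum i)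
  set f := (f2 p).toReal with hf
  set x := (p i).toReal with hx
  have hf0 : 0 < f := ENNReal.toReal_pos (f2_ne hp) hft
  have hx0 : 0 ≤ x := ENNReal.toReal_nonneg
  have hxf : x ^ 2 ≤ f := by
    rw [hx, ← ENNReal.toReal_pow]
    exact ENNReal.toReal_mono hft (ENNReal.le_tsum (f := fun j => p j ^ 2) i)
  set s := √f with hs
  have hs0 : 0 < s := Real.sqrt_pos.2 hf0
  have hss : s ^ 2 = f := Real.sq_sqrt hf0.le
  have hxs : x ≤ s := Real.le_sqrt_of_sq_le hxf
  set K := ⌊1 / (2 * s)⌋₊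
  have hK1 : (K : ℝ) * s ≤ 1 / 2 := by
    have := Nat.floor_le (show 0 ≤ 1 / (2 * s) by positivity)
    rw [le_div_iff₀ (by positivity)] at this
    linarith
  have hK2 : 1 / 2 ≤ (K + 1 : ℝ) * s := by
    have := (Nat.lt_floor_add_one (1 / (2 * s))).le
    rw [div_le_iff₀ (by positivity)] at this
    linarith
  have hb : ∀ n ≤ K, ENNReal.ofReal (3 / 8) ≤ (n ! : ℕ) * e' p i n := by
    intro n hn
    have hbt : ((n ! : ℕ) : ℝ≥0∞) * e' p i n ≠ ⊤ := ne_top_of_le_ne_top ENNReal.one_ne_top (b_le hp i n)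
    have h := ENNReal.toReal_mono (by finiteness) (b_ge hp i n)
    rw [ENNReal.toReal_add (by finiteness) (by finiteness),
      ENNReal.toReal_add hbt (by finiteness), ENNReal.toReal_mul (a := (n : ℝ≥0∞)),
      ENNReal.toReal_mul (b := f2 p), ENNReal.toReal_natCast, ENNReal.toReal_natCast,
      ENNReal.toReal_one, ← hf, ← hx] at h
    refine ENNReal.ofReal_le_of_le_toReal ?_
    have h2 : ((∑ k ∈ Finset.range n, k : ℕ) : ℝ) * 2 ≤ (n : ℝ) ^ 2 := by
      have := Finset.sum_range_id_mul_two n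
      have h3 : n * (n - 1) ≤ n ^ 2 := by rw [sq]; exact Nat.mul_le_mul_left _ (by omega)
      exact_mod_cast this ▸ h3
    have hn' : (n : ℝ) ≤ K := by exact_mod_cast hn
    have hn0 : (0 : ℝ) ≤ n := n.cast_nonneg
    have h4 : (n : ℝ) * s ≤ 1 / 2 := by nlinarith
    have h5 : (n : ℝ) * x ≤ 1 / 2 := by nlinarith
    have h6 : (n : ℝ) ^ 2 * f ≤ 1 / 4 := by
      rw [← hss, ← mul_pow]; nlinarith [mul_nonneg hn0 hs0.le]
    nlinarith
  refine le_trans ?_ (ENNReal.sum_le_tsum (Finset.range (K + 1)))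
  have h7 : ∑ k ∈ Finset.range (K + 1), ENNReal.ofReal ((k + 1) * (3 / 8)) ≤
      ∑ k ∈ Finset.range (K + 1), (((k + 1)! : ℕ) : ℝ≥0∞) * e' p i k := by
    refine Finset.sum_le_sum fun k hk => ?_
    rw [Nat.factorial_succ, Nat.cast_mul, mul_assoc, ENNReal.ofReal_mul (by positivity)]
    gcongr
    · rw [← ENNReal.ofReal_natCast]; simp
    · exact hb k (by simpa [Nat.lt_succ_iff] using hk)
  refine le_trans ?_ h7
  rw [← ENNReal.ofReal_sum_of_nonneg fun _ _ => by positivity, ← ENNReal.ofReal_toReal hft, ← hf,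
    ← ENNReal.ofReal_div_of_pos hf0]
  refine ENNReal.ofReal_le_ofReal ?_
  have h8 : ∀ m : ℕ, ∑ k ∈ Finset.range m, ((k : ℝ) + 1) * (3 / 8) = m * (m + 1) / 2 * (3 / 8) := by
    intro m
    induction m with
    | zero => simp
    | succ m ih => rw [Finset.sum_range_succ, ih]; push_cast; ring
  rw [h8, div_le_iff₀ hf0, ← hss]
  push_cast
  have hK0 : (0 : ℝ) ≤ K := K.cast_nonneg
  nlinarith [mul_nonneg hK0 (sq_nonneg s), sq_nonneg s]

theorem result (C : Type) [DecidableEq C] (p : C → ℝ≥0∞) (hp : ∑' i, p i = 1) :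
    D p ≤ 61 / 64 := by
  have hft : f2 p ≠ ⊤ := ne_top_of_le_ne_top ENNReal.one_ne_top (f2_le hp)
  set c := ENNReal.ofReal (3 / 64) with hc
  have hX : ∑' i, PX p i = 1 := by
    simp only [PX, div_eq_mul_inv]
    rw [ENNReal.tsum_mul_right]
    exact ENNReal.mul_inv_cancel (f2_ne hp) hft
  have hcX : ∀ i, c * PX p i ≤ PY p i := by
    intro i
    refine le_trans (le_of_eq ?_) (mul_le_mul_right (g_ge hp i) _)
    rw [← hc]; simp only [PX, div_eq_mul_inv]; ring
  have hc1 : c ≤ 1 := ENNReal.ofReal_le_one.2 (by norm_num)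
  have h1 : ∀ i, (PX p i - PY p i) + (PY p i - PX p i) + 2 * (c * PX p i) ≤ PX p i + PY p i := by
    intro i
    have a1 : c * PX p i ≤ PX p i := mul_le_of_le_one_left' hc1
    rcases le_total (PX p i) (PY p i) with h | h
    · rw [tsub_eq_zero_of_le h, zero_add, two_mul, ← add_assoc, add_comm (PX p i)]
      gcongr
      calc PY p i - PX p i + c * PX p i ≤ PY p i - PX p i + PX p i := by gcongr
        _ = PY p i := tsub_add_cancel_of_le h
    · rw [tsub_eq_zero_of_le h, add_zero, two_mul, ← add_assoc]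
      gcongr
      · calc PX p i - PY p i + c * PX p i ≤ PX p i - PY p i + PY p i := by gcongr; exact hcX i
          _ = PX p i := tsub_add_cancel_of_le h
      · exact hcX i
  have h2 := ENNReal.tsum_le_tsum h1
  rw [ENNReal.tsum_add (g := fun i => 2 * (c * PX p i)), ENNReal.tsum_add (f := PX p),
    ENNReal.tsum_mul_left, ENNReal.tsum_mul_left, hX, mul_one] at h2
  have h3 : ∑' i, ((PX p i - PY p i) + (PY p i - PX p i)) + 2 * c ≤ 2 :=
    h2.trans (by rw [← one_add_one_eq_two]; gcongr; exact sum_PY hp)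
  unfold D
  set T := ∑' i, ((PX p i - PY p i) + (PY p i - PX p i))
  have hT : T ≠ ⊤ := ne_top_of_le_ne_top (by simp) (le_self_add.trans h3)
  have h4 := ENNReal.toReal_mono (by simp) h3
  rw [ENNReal.toReal_add hT (by finiteness), ENNReal.toReal_mul, hc,
    ENNReal.toReal_ofReal (by norm_num)] at h4
  rw [← ENNReal.toReal_le_toReal (by finiteness) (by finiteness)]
  simp only [ENNReal.toReal_mul, ENNReal.toReal_inv, ENNReal.toReal_div, ENNReal.toReal_ofNat] at h4 ⊢
  linarith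

end Pool.Agent.Results.MP_c9cfcf_pr.Socks
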